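import Pool.Agent.Y333.VK.ZfA
import Pool.Agent.W66.LA
import Pool.Agent.Q236.CR.Stm

/-!
Zero free region and bound for the inverse of the Dirichlet L-functions from the upper bound
(project CR of helper236, job LZF; adaptation of `Pool/Agent/Y333/VK`).
-/

set_option autoImplicit false

open Complex Filter Topology Set MeasureTheory Metric
open scoped ArithmeticFunction.vonMangoldt ArithmeticFunction.Moebius

namespace Pool.Agent.Q161.CR

variable {q : ℕ} [NeZero q]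

/-- bound for the inverse to the right of `1` -/
lemma inv_lec (χ : DirichletCharacter ℂ q) {w : ℂ} (hw : 1 < w.re) :
    ‖(χ.LFunction w)⁻¹‖ ≤ 1 + 1 / (w.re - 1) := by
  have h1 := DirichletCharacter.LSeries.mul_mu_eq_one χ hw
  rw [← DirichletCharacter.LFunction_eq_LSeries χ hw] at h1
  have h2 : (χ.LFunction w)⁻¹ =
      LSeries ((fun n : ℕ => χ n) * (fun n : ℕ => ((ArithmeticFunction.moebius n : ℤ) : ℂ))) w :=
    inv_eq_of_mul_eq_one_right h1
  rw [h2, LSeries]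
  refine le_trans ?_ (Pool.Agent.Y333.VK.zeta_le hw)
  have hsum : Summable (fun n : ℕ => (n : ℝ) ^ (-w.re)) :=
    Real.summable_nat_rpow.mpr (by linarith)
  have h3 : ∀ n : ℕ, ‖LSeries.term ((fun n : ℕ => χ n) *
      (fun n : ℕ => ((ArithmeticFunction.moebius n : ℤ) : ℂ))) w n‖ ≤ (n : ℝ) ^ (-w.re) := by
    intro n
    rcases Nat.eq_zero_or_pos n with rfl | hn
    · rw [LSeries.term_zero, norm_zero]
      exact Real.rpow_nonneg (Nat.cast_nonneg 0) _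
    · rw [LSeries.term_of_ne_zero hn.ne', norm_div, Complex.norm_natCast_cpow_of_pos hn,
        Real.rpow_neg (Nat.cast_nonneg n), ← one_div]
      apply div_le_div_of_nonneg_right _ (Real.rpow_nonneg (Nat.cast_nonneg n) _)
      rw [Pi.mul_apply, norm_mul, Complex.norm_intCast]
      have h4 : ‖χ (n : ZMod q)‖ ≤ 1 := χ.norm_le_one _
      have h5 : |((ArithmeticFunction.moebius n : ℤ) : ℝ)| ≤ 1 := by
        exact_mod_cast ArithmeticFunction.abs_moebius_le_one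
      calc ‖χ (n : ZMod q)‖ * |((ArithmeticFunction.moebius n : ℤ) : ℝ)| ≤ 1 * 1 :=
            mul_le_mul h4 h5 (abs_nonneg _) zero_le_one
        _ = 1 := one_mul 1
  exact tsum_of_norm_bounded hsum.hasSum h3

/-- the upper bound -/
def UBc (q : ℕ) [NeZero q] (w M T : ℝ) : Prop := ∀ χ : DirichletCharacter ℂ q, ∀ s : ℂ,
  1 ≤ |s.im| → |s.im| ≤ 3 * T → 1 - 32 * w ≤ s.re → s.re ≤ 3 → ‖χ.LFunction s‖ ≤ M

/-- the local lemma -/
lemma locc {w M T : ℝ} (hw0 : 0 < w) (hw1 : w ≤ 1 / 32) (hM1 : 1 ≤ M) (hT : 2 ≤ T)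
    (h : UBc q w M T) (χ : DirichletCharacter ℂ q) {τ η : ℝ} (hτ1 : 19 / 10 ≤ |τ|)
    (hτ2 : |τ| ≤ 2 * T + 1) (hη0 : 0 < η) (hη : η ≤ w) :
    (-(12 * (Real.log (2 * M / η) + 1) / w) ≤
      (deriv χ.LFunction ⟨1 + η, τ⟩ / χ.LFunction ⟨1 + η, τ⟩).re) ∧
    (∀ ρ ∈ closedBall (⟨1 + η, τ⟩ : ℂ) (2 * w), χ.LFunction ρ = 0 →
      (1 / ((⟨1 + η, τ⟩ : ℂ) - ρ)).re - 12 * (Real.log (2 * M / η) + 1) / w ≤
        (deriv χ.LFunction ⟨1 + η, τ⟩ / χ.LFunction ⟨1 + η, τ⟩).re) ∧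
    (∀ z ∈ closedBall (⟨1 + η, τ⟩ : ℂ) w, ∀ d : ℝ, 0 < d →
      (∀ ρ ∈ closedBall (⟨1 + η, τ⟩ : ℂ) (2 * w), χ.LFunction ρ = 0 → d ≤ ‖z - ρ‖) →
      χ.LFunction z ≠ 0 ∧ ‖deriv χ.LFunction z / χ.LFunction z‖ ≤
        Real.log (2 * M / η) * (3 / 2) / d + 12 * (Real.log (2 * M / η) + 1) / w) := by
  set c : ℂ := ⟨1 + η, τ⟩ with hc
  have hcr : c.re = 1 + η := rfl
  have hci : c.im = τ := rfl
  have him : ∀ z ∈ closedBall c (4 * w), 1 ≤ |z.im| ∧ |z.im| ≤ 3 * T ∧ 1 - 32 * w ≤ z.re ∧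
      z.re ≤ 3 := by
    intro z hz
    rw [mem_closedBall, dist_eq_norm] at hz
    have h1 := (abs_re_le_norm (z - c)).trans hz
    have h2 := (abs_im_le_norm (z - c)).trans hz
    rw [sub_re, hcr, abs_le] at h1
    rw [sub_im, hci] at h2
    have h3 : |τ| - |z.im| ≤ |z.im - τ| := by
      rw [abs_sub_comm]
      exact abs_sub_abs_le_abs_sub _ _
    have h4 : |z.im| - |τ| ≤ |z.im - τ| := abs_sub_abs_le_abs_sub _ _
    exact ⟨by linarith, by linarith, by linarith [h1.1], by linarith [h1.2]⟩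
  have hball : ∀ z ∈ closedBall c (4 * w), ‖χ.LFunction z‖ ≤ M := fun z hz => by
    obtain ⟨h1, h2, h3, h4⟩ := him z hz
    exact h χ z h1 h2 h3 h4
  have hne : ∀ z ∈ closedBall c (4 * w), z ≠ 1 := by
    intro z hz he
    have h1 := (him z hz).1
    rw [he, one_im, abs_zero] at h1
    linarith
  have hzre : ∀ ρ : ℂ, ρ ≠ 1 → χ.LFunction ρ = 0 → ρ.re < 1 := by
    intro ρ hρ1 hρ
    by_contra hcon
    exact DirichletCharacter.LFunction_ne_zero_of_one_le_re χ (Or.inr hρ1) (not_lt.1 hcon) hρ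
  have han : AnalyticOnNhd ℂ χ.LFunction (closedBall c (4 * w)) := by
    have h1 : DifferentiableOn ℂ χ.LFunction {1}ᶜ := fun z hz =>
      (DirichletCharacter.differentiableAt_LFunction χ z (Or.inl hz)).differentiableWithinAt
    exact (h1.analyticOnNhd isOpen_compl_singleton).mono fun z hz => hne z hz
  have hcm : c ∈ closedBall c (4 * w) := mem_closedBall_self (by linarith)
  have hcb := hball c hcm
  have hcre : 1 < c.re := by rw [hcr]; linarith
  have hc0 : χ.LFunction c ≠ 0 :=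
    DirichletCharacter.LFunction_ne_zero_of_one_le_re χ (Or.inr (hne c hcm)) hcre.le
  have hcpos : 0 < ‖χ.LFunction c‖ := norm_pos_iff.2 hc0
  have hinv : ‖χ.LFunction c‖⁻¹ ≤ 2 / η := by
    have h1 := inv_lec χ hcre
    rw [norm_inv] at h1
    have h2 : c.re - 1 = η := by rw [hcr]; ring
    rw [h2] at h1
    refine h1.trans ?_
    have h3 : 1 ≤ 1 / η := by rw [le_div_iff₀ hη0]; linarith
    have h4 : 2 / η = 1 / η + 1 / η := by ring
    linarith
  have hM0 : 0 < M := by linarith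
  have hlog : Real.log (M / ‖χ.LFunction c‖) ≤ Real.log (2 * M / η) := by
    apply Real.log_le_log (by positivity)
    calc M / ‖χ.LFunction c‖ = M * ‖χ.LFunction c‖⁻¹ := div_eq_mul_inv _ _
      _ ≤ M * (2 / η) := mul_le_mul_of_nonneg_left hinv (by positivity)
      _ = 2 * M / η := by ring
  have hlog0 : 0 ≤ Real.log (M / ‖χ.LFunction c‖) :=
    Real.log_nonneg (by rw [le_div_iff₀ hcpos]; linarith)
  have hq : Real.log (2 * w / (4 * w - 2 * w)) = 0 := by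
    have h1 : 4 * w - 2 * w = 2 * w := by ring
    rw [h1, div_self (by positivity), Real.log_one]
  have herr : 2 * (Real.log (M / ‖χ.LFunction c‖) +
      Real.log (M / ‖χ.LFunction c‖) / Real.log (4 * w / (2 * w)) *
      Real.log (2 * w / (4 * w - 2 * w)) + 1) * (3 / 2 * w) / (2 * w - 3 / 2 * w) /
      (3 / 2 * w - w) ≤ 12 * (Real.log (2 * M / η) + 1) / w := by
    rw [hq]
    have e1 : 2 * w - 3 / 2 * w = w / 2 := by ring
    have e2 : 3 / 2 * w - w = w / 2 := by ring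
    rw [e1, e2, mul_zero, add_zero]
    have e3 : 2 * (Real.log (M / ‖χ.LFunction c‖) + 1) * (3 / 2 * w) / (w / 2) / (w / 2) =
        12 * (Real.log (M / ‖χ.LFunction c‖) + 1) / w := by
      field_simp
      ring
    rw [e3]
    gcongr
  obtain ⟨s, hs1, hs2, hs3⟩ := Pool.Agent.W66.landau_re (f := χ.LFunction) (c := c) (r := 2 * w)
    (r1 := 3 / 2 * w) (r2 := w) (R := 4 * w) (M := M) hw0 (by linarith) (by linarith)
    (by linarith) (by linarith) hM1 hcb han hc0 hball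
  have hsub : ∀ ρ ∈ closedBall c (2 * w), ρ ≠ 1 := fun ρ hρ =>
    hne ρ (closedBall_subset_closedBall (by linarith) hρ)
  have hsre : ∀ ρ ∈ s, ρ.re < 1 := fun ρ hρ => hzre ρ (hsub ρ (hs1 ρ hρ).1) (hs1 ρ hρ).2
  have hcne : ∀ ρ ∈ s, c ≠ ρ := by
    intro ρ hρ he
    have h1 := hsre ρ hρ
    rw [← he] at h1
    linarith
  have h3 := (hs3 c (mem_closedBall_self hw0.le) hcne).trans herr
  obtain ⟨j1, j2⟩ := Pool.Agent.Y333.VK.sum_re hcre s fun ρ hρ => hsre ρ hρ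
  have h4 := (Complex.abs_re_le_norm _).trans h3
  rw [sub_re, abs_le] at h4
  refine ⟨by linarith [h4.1], fun ρ hρ hρ0 => ?_, fun z hz d hd hdist => ?_⟩
  · have := j2 ρ (hs2 ρ hρ hρ0)
    linarith [h4.1]
  · obtain ⟨h5, h6⟩ := H370.Loc.landau (f := χ.LFunction) (c := c) (r := 2 * w)
      (r1 := 3 / 2 * w) (r2 := w) (R := 4 * w) (M := M) hw0 (by linarith) (by linarith)
      (by linarith) (by linarith) hM1 hcb han hc0 hball z hz d hd hdist
    refine ⟨h5, h6.trans (add_le_add ?_ herr)⟩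
    have e1 : 4 * w / (2 * w) = 2 := by
      field_simp
      norm_num
    rw [e1]
    have hl2 : 2 / 3 ≤ Real.log 2 := by
      have := Real.log_two_gt_d9
      linarith
    have e2 : Real.log (M / ‖χ.LFunction c‖) / Real.log 2 ≤
        Real.log (2 * M / η) * (3 / 2) := by
      rw [div_le_iff₀ (by linarith)]
      have h7 : 0 ≤ Real.log (2 * M / η) := hlog0.trans hlog
      nlinarith
    gcongr

/-- logarithmic derivative as a Dirichlet series -/
lemma LSeries_eq_DLc (χ : DirichletCharacter ℂ q) {s : ℂ} (hs : 1 < s.re) :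
    LSeries ((fun n : ℕ => (χ n : ℂ)) * (fun n : ℕ => (Λ n : ℂ))) s =
      - (deriv χ.LFunction s / χ.LFunction s) := by
  rw [DirichletCharacter.LSeries_twist_vonMangoldt_eq χ hs]
  have h1 : χ.LFunction =ᶠ[𝓝 s] LSeries (fun n : ℕ => χ n) := by
    have h4 : {z : ℂ | 1 < z.re} ∈ 𝓝 s :=
      (isOpen_lt continuous_const Complex.continuous_re).mem_nhds hs
    filter_upwards [h4] with z hz
    exact DirichletCharacter.LFunction_eq_LSeries χ hz
  rw [h1.deriv_eq, h1.eq_of_nhds]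
  ring

/-- no zeros near the line -/
lemma zfreec : ∃ C0 : ℝ, 0 < C0 ∧ ∀ (q : ℕ) [NeZero q] (w M T D A Q η : ℝ), 0 < w → w ≤ 1 / 32 →
    1 ≤ M → 2 ≤ T → UBc q w M T → 1 ≤ Q → C0 ≤ Q → 0 < D → 10 * D + 2 ≤ A → η = w / (A * Q) →
    12 * (Real.log (2 * M / η) + 1) ≤ D * Q →
    ∀ (χ : DirichletCharacter ℂ q) (ρ : ℂ), χ.LFunction ρ = 0 → 19 / 10 ≤ |ρ.im| →
      |ρ.im| ≤ T + 1 / 2 → ρ.re ≤ 1 - η / 7 := by
  obtain ⟨K0, hK0, hD0⟩ := Pool.Agent.W66.D_re
  have hell := Pool.Agent.W66.one_le_ell 0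
  refine ⟨3 * (K0 * Pool.Agent.W66.ell 0), by positivity, ?_⟩
  intro q _ w M T D A Q η hw0 hw1 hM1 hT h hQ1 hQ3 hD hA hη hE χ ρ hρ ht1 ht2
  generalize ht' : ρ.im = t at *
  have hA0 : 0 < A := by linarith
  have hQ0 : 0 < Q := by linarith
  have hAQ : 1 ≤ A * Q := by nlinarith
  have hη0 : 0 < η := by rw [hη]; positivity
  have hηw : η ≤ w := by rw [hη]; exact div_le_self hw0.le hAQ
  by_cases hre : ρ.re < 1 - w
  · have h1 : η / 7 ≤ η := by linarith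
    linarith
  push Not at hre
  have hρ1 : ρ ≠ 1 := by
    rintro rfl
    rw [one_im] at ht'
    rw [← ht', abs_zero] at ht1
    linarith
  have hre1 : ρ.re < 1 := by
    by_contra hcon
    exact DirichletCharacter.LFunction_ne_zero_of_one_le_re χ (Or.inr hρ1) (not_lt.1 hcon) hρ
  have h341 := Pool.Agent.W66L.three_four_one_char χ (σ := 1 + η) (by linarith) t
  have hcr : ∀ v : ℝ, 1 < (⟨1 + η, v⟩ : ℂ).re := fun v => by
    show 1 < 1 + η
    linarith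
  rw [Pool.Agent.W66.LSeries_eq_DD (hcr 0), LSeries_eq_DLc χ (hcr t),
    LSeries_eq_DLc (χ ^ 2) (hcr (2 * t)), sub_re, neg_re, neg_re] at h341
  have d0 := (hD0 0 (1 + η) (by linarith) (by linarith)).1
  change _ ≤ (Pool.Agent.W66.DD _).re at d0
  have hball : ρ ∈ closedBall (⟨1 + η, t⟩ : ℂ) (2 * w) := by
    rw [mem_closedBall, dist_eq_norm]
    have e : ρ - ⟨1 + η, t⟩ = ((ρ.re - (1 + η) : ℝ) : ℂ) := by
      apply Complex.ext <;> simp [ht']
    rw [e, Complex.norm_real, Real.norm_eq_abs, abs_le]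
    constructor <;> linarith
  have h2t : |2 * t| = 2 * |t| := by rw [abs_mul]; norm_num
  have d1 := (locc hw0 hw1 hM1 hT h χ ht1 (by linarith) hη0 hηw).2.1 ρ hball hρ
  have d2 := (locc hw0 hw1 hM1 hT h (χ ^ 2) (τ := 2 * t) (by rw [h2t]; linarith [abs_nonneg t])
    (by rw [h2t]; linarith) hη0 hηw).1
  have e0 : (1 / ((⟨1 + η, 0⟩ : ℂ) - 1)).re = 1 / η := by
    have e : (⟨1 + η, 0⟩ : ℂ) - 1 = ((η : ℝ) : ℂ) := by
      apply Complex.ext <;> simp
    rw [e, ← Complex.ofReal_one, ← Complex.ofReal_div, Complex.ofReal_re]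
  have e1 : (1 / ((⟨1 + η, t⟩ : ℂ) - ρ)).re = 1 / (1 + η - ρ.re) := by
    have e : (⟨1 + η, t⟩ : ℂ) - ρ = ((1 + η - ρ.re : ℝ) : ℂ) := by
      apply Complex.ext <;> simp [ht']
    rw [e, ← Complex.ofReal_one, ← Complex.ofReal_div, Complex.ofReal_re]
  rw [e1] at d1
  rw [e0] at h341
  have hE2 : 12 * (Real.log (2 * M / η) + 1) / w ≤ D * (Q / w) := by
    calc 12 * (Real.log (2 * M / η) + 1) / w ≤ D * Q / w := by gcongr
      _ = D * (Q / w) := by ring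
  have h3η : 1 / η = A * (Q / w) := by
    rw [hη]
    field_simp
  have hQw : Q ≤ Q / w := by
    rw [le_div_iff₀ hw0]
    nlinarith
  have hQw0 : 0 < Q / w := by positivity
  have hD1 : 0 < 1 + η - ρ.re := by linarith
  have hm : 4 * (1 / (1 + η - ρ.re)) ≤ 7 / 2 * (A * (Q / w)) := by
    have h5 : (5 * D + 1) * (Q / w) ≤ A / 2 * (Q / w) :=
      mul_le_mul_of_nonneg_right (by linarith) hQw0.le
    have h6 : K0 * Pool.Agent.W66.ell 0 * 3 ≤ Q := by linarith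
    nlinarith
  rw [← h3η] at hm
  have hm2 : 4 * η ≤ 7 / 2 * (1 + η - ρ.re) := by
    have h1 : 4 * (1 / (1 + η - ρ.re)) = 4 / (1 + η - ρ.re) := by ring
    have h2 : 7 / 2 * (1 / η) = (7 / 2) / η := by ring
    rw [h1, h2, div_le_div_iff₀ hD1 hη0] at hm
    exact hm
  linarith

/-- growth along a horizontal segment -/
lemma growc (χ : DirichletCharacter ℂ q) {σ x1 t G : ℝ} (hσ : σ ≤ x1) (ht : t ≠ 0)
    (h : ∀ x ∈ Icc σ x1, χ.LFunction ⟨x, t⟩ ≠ 0 ∧
      ‖deriv χ.LFunction ⟨x, t⟩ / χ.LFunction ⟨x, t⟩‖ ≤ G) :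
    ‖χ.LFunction ⟨x1, t⟩‖ ≤ ‖χ.LFunction ⟨σ, t⟩‖ * Real.exp (G * (x1 - σ)) := by
  have hd : ∀ x : ℝ, HasDerivAt (fun x : ℝ => χ.LFunction ⟨x, t⟩) (deriv χ.LFunction ⟨x, t⟩) x := by
    intro x
    have hne : (⟨x, t⟩ : ℂ) ≠ 1 := by
      intro he
      apply ht
      have := congrArg Complex.im he
      simpa using this
    have h1 := (DirichletCharacter.differentiableAt_LFunction χ _ (Or.inl hne)).hasDerivAt
    have h2 : HasDerivAt (fun x : ℝ => (⟨x, t⟩ : ℂ)) 1 x := by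
      have h3 : (fun x : ℝ => (⟨x, t⟩ : ℂ)) = fun x : ℝ => (x : ℂ) + t * I := by
        ext x
        apply Complex.ext <;> simp
      rw [h3]
      exact (HasDerivAt.ofReal_comp (hasDerivAt_id x)).add_const _
    have h3 := HasDerivAt.comp x h1 h2
    rw [mul_one] at h3
    exact h3
  have hg := norm_le_gronwallBound_of_norm_deriv_right_le (f := fun x : ℝ => χ.LFunction ⟨x, t⟩)
    (f' := fun x => deriv χ.LFunction ⟨x, t⟩) (δ := ‖χ.LFunction ⟨σ, t⟩‖) (K := G) (ε := 0)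
    (a := σ) (b := x1) (fun x _ => (hd x).continuousAt.continuousWithinAt)
    (fun x _ => (hd x).hasDerivWithinAt) le_rfl (fun x hx => by
      obtain ⟨h1, h2⟩ := h x ⟨hx.1, hx.2.le⟩
      have h3 : deriv χ.LFunction ⟨x, t⟩ =
          deriv χ.LFunction ⟨x, t⟩ / χ.LFunction ⟨x, t⟩ * χ.LFunction ⟨x, t⟩ := by
        field_simp
      rw [add_zero, h3, norm_mul]
      exact mul_le_mul_of_nonneg_right h2 (norm_nonneg _)) x1 ⟨hσ, le_rfl⟩
  rwa [gronwallBound_ε0] at hg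

/-- bound at one height -/
lemma bdc {w M T D Q w1 t : ℝ} (hw0 : 0 < w) (hw1 : w ≤ 1 / 32) (hM1 : 1 ≤ M) (hT : 2 ≤ T)
    (h : UBc q w M T) (hD : 0 < D) (hQ0 : 0 ≤ Q) (hw10 : 0 < w1) (hw1w : 2 * w1 ≤ w)
    (hE : 12 * (Real.log (2 * M / w1) + 1) ≤ D * Q) (χ : DirichletCharacter ℂ q)
    (ht1 : 2 ≤ |t|) (ht2 : |t| ≤ T)
    (hz : ∀ ρ : ℂ, χ.LFunction ρ = 0 → |ρ.im - t| ≤ 1 / 16 → ρ.re ≤ 1 - w1) {σ : ℝ}
    (hσ : 1 - w1 / 2 ≤ σ) :
    χ.LFunction ⟨σ, t⟩ ≠ 0 ∧ ‖(χ.LFunction ⟨σ, t⟩)⁻¹‖ ≤ Real.exp (2 * D * Q) * (2 / w1) := by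
  have ht0 : t ≠ 0 := by
    intro h0
    rw [h0, abs_zero] at ht1
    linarith
  have hright : ∀ x : ℝ, 1 + w1 ≤ x → χ.LFunction ⟨x, t⟩ ≠ 0 ∧
      ‖(χ.LFunction ⟨x, t⟩)⁻¹‖ ≤ 2 / w1 := by
    intro x hx
    have h1 : 1 < (⟨x, t⟩ : ℂ).re := by
      show 1 < x
      linarith
    have hx1 : (⟨x, t⟩ : ℂ) ≠ 1 := by
      intro he
      rw [he, one_re] at h1
      linarith
    refine ⟨DirichletCharacter.LFunction_ne_zero_of_one_le_re χ (Or.inr hx1) h1.le,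
      (inv_lec χ h1).trans ?_⟩
    show 1 + 1 / (x - 1) ≤ 2 / w1
    have h2 : 1 / (x - 1) ≤ 1 / w1 := one_div_le_one_div_of_le hw10 (by linarith)
    have h3 : 1 ≤ 1 / w1 := by
      rw [le_div_iff₀ hw10]
      linarith
    have h4 : 2 / w1 = 1 / w1 + 1 / w1 := by ring
    linarith
  have hDQ : 0 ≤ 2 * D * Q := by positivity
  have hinv0 : 0 ≤ 2 / w1 := by positivity
  rcases le_or_gt (1 + w1) σ with hc | hc
  · obtain ⟨h1, h2⟩ := hright σ hc
    refine ⟨h1, h2.trans ?_⟩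
    have h3 : 1 ≤ Real.exp (2 * D * Q) := Real.one_le_exp hDQ
    nlinarith
  have hseg : ∀ x ∈ Icc σ (1 + w1), χ.LFunction ⟨x, t⟩ ≠ 0 ∧
      ‖deriv χ.LFunction ⟨x, t⟩ / χ.LFunction ⟨x, t⟩‖ ≤ 5 / 4 * (D * Q) / w1 := by
    intro x hx
    obtain ⟨h1, h2⟩ := (locc hw0 hw1 hM1 hT h χ (τ := t) (η := w1) (by linarith) (by linarith) hw10
      (by linarith)).2.2 ⟨x, t⟩ (by
      rw [mem_closedBall, dist_eq_norm]
      have e : (⟨x, t⟩ : ℂ) - ⟨1 + w1, t⟩ = ((x - (1 + w1) : ℝ) : ℂ) := by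
        apply Complex.ext <;> simp
      rw [e, Complex.norm_real, Real.norm_eq_abs, abs_le]
      constructor <;> linarith [hx.1, hx.2]) (w1 / 2) (by linarith) (by
      intro ρ hρ hρ0
      rw [mem_closedBall, dist_eq_norm] at hρ
      have h2 := (abs_im_le_norm (ρ - ⟨1 + w1, t⟩)).trans hρ
      rw [sub_im] at h2
      have h3 := hz ρ hρ0 (h2.trans (by linarith))
      have h4 := (le_abs_self _).trans (abs_re_le_norm ((⟨x, t⟩ : ℂ) - ρ))
      rw [sub_re] at h4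
      have h5 : (⟨x, t⟩ : ℂ).re = x := rfl
      rw [h5] at h4
      linarith [hx.1])
    refine ⟨h1, h2.trans ?_⟩
    have e1 : Real.log (2 * M / w1) * (3 / 2) / (w1 / 2) ≤ 1 / 4 * (D * Q) / w1 := by
      have e3 : Real.log (2 * M / w1) * (3 / 2) / (w1 / 2) = 3 * Real.log (2 * M / w1) / w1 := by
        field_simp
      rw [e3]
      exact div_le_div_of_nonneg_right (by linarith) hw10.le
    have e2 : 12 * (Real.log (2 * M / w1) + 1) / w ≤ D * Q / w1 := by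
      calc 12 * (Real.log (2 * M / w1) + 1) / w ≤ D * Q / w := by gcongr
        _ ≤ D * Q / w1 := by
          apply div_le_div_of_nonneg_left (by positivity) hw10 (by linarith)
    have e3 : 5 / 4 * (D * Q) / w1 = 1 / 4 * (D * Q) / w1 + D * Q / w1 := by ring
    rw [e3]
    exact add_le_add e1 e2
  have hg := growc χ hc.le ht0 hseg
  obtain ⟨k1, k2⟩ := hright (1 + w1) le_rfl
  have k3 := (hseg σ ⟨le_rfl, hc.le⟩).1
  refine ⟨k3, ?_⟩
  have hexp2 : Real.exp (5 / 4 * (D * Q) / w1 * (1 + w1 - σ)) ≤ Real.exp (2 * D * Q) := by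
    apply Real.exp_le_exp.2
    have h1 : 5 / 4 * (D * Q) / w1 * (1 + w1 - σ) ≤ 5 / 4 * (D * Q) / w1 * (3 / 2 * w1) :=
      mul_le_mul_of_nonneg_left (by linarith) (by positivity)
    have h2 : 5 / 4 * (D * Q) / w1 * (3 / 2 * w1) = 15 / 8 * (D * Q) := by
      field_simp
      ring
    have h3 : 0 ≤ D * Q := by positivity
    linarith
  have k4 : 0 < ‖χ.LFunction ⟨σ, t⟩‖ := norm_pos_iff.2 k3
  have k5 : 0 < ‖χ.LFunction ⟨1 + w1, t⟩‖ := norm_pos_iff.2 k1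
  have k6 : ‖χ.LFunction ⟨1 + w1, t⟩‖ ≤ ‖χ.LFunction ⟨σ, t⟩‖ * Real.exp (2 * D * Q) :=
    hg.trans (mul_le_mul_of_nonneg_left hexp2 (norm_nonneg _))
  rw [norm_inv] at k2 ⊢
  have k7 : ‖χ.LFunction ⟨σ, t⟩‖⁻¹ ≤ Real.exp (2 * D * Q) * ‖χ.LFunction ⟨1 + w1, t⟩‖⁻¹ := by
    rw [inv_eq_one_div, div_le_iff₀ k4]
    have h1 : Real.exp (2 * D * Q) * ‖χ.LFunction ⟨1 + w1, t⟩‖⁻¹ * ‖χ.LFunction ⟨σ, t⟩‖ =
        (‖χ.LFunction ⟨σ, t⟩‖ * Real.exp (2 * D * Q)) / ‖χ.LFunction ⟨1 + w1, t⟩‖ := by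
      ring
    rw [h1, le_div_iff₀ k5, one_mul]
    exact k6
  exact k7.trans (mul_le_mul_of_nonneg_left k2 (Real.exp_pos _).le)

/-- **LZF** -/
theorem lzf (h : Pool.Agent.Q236.CR.S_LUP) : Pool.Agent.Q236.CR.S_LZF := by
  intro B
  obtain ⟨δ, K, T₀, hδ0, hδ1, hK, hT₀, h⟩ := h B
  obtain ⟨C0, hC0, hzf⟩ := zfreec
  obtain ⟨D, hD⟩ : ∃ D : ℝ, D = 12 * (K + 3) := ⟨_, rfl⟩
  obtain ⟨A, hA⟩ : ∃ A : ℝ, A = 10 * D + 2 := ⟨_, rfl⟩
  have hD0 : 0 < D := by rw [hD]; linarith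
  have hA0 : 0 < A := by rw [hA]; linarith
  have hlt : Tendsto Real.log atTop atTop := Real.tendsto_log_atTop
  have hlo : ∀ᶠ L : ℝ in atTop, 448 * A * Real.log L ≤ L ^ (δ / 2) := by
    have h1 := (isLittleO_log_rpow_atTop (half_pos hδ0)).bound
      (show (0 : ℝ) < 1 / (448 * A) by positivity)
    filter_upwards [h1, eventually_ge_atTop 1] with L h2 h3
    rw [Real.norm_of_nonneg (Real.log_nonneg h3),
      Real.norm_of_nonneg (Real.rpow_nonneg (by linarith) _)] at h2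
    have h4 : 448 * A * (1 / (448 * A) * L ^ (δ / 2)) = L ^ (δ / 2) := by
      field_simp
    have h5 := mul_le_mul_of_nonneg_left h2 (show 0 ≤ 448 * A by positivity)
    linarith
  have hev : ∀ᶠ T : ℝ in atTop, T₀ ≤ T ∧ 3 ≤ T ∧ 1 ≤ Real.log T ∧ 1 ≤ Real.log (Real.log T) ∧
      C0 ≤ Real.log (Real.log T) ∧ Real.log (448 * A) + 1 ≤ Real.log (Real.log T) ∧
      448 * A * Real.log (Real.log T) ≤ Real.log T ^ (δ / 2) := by
    filter_upwards [eventually_ge_atTop T₀, eventually_ge_atTop 3, hlt.eventually_ge_atTop 1,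
      (hlt.comp hlt).eventually_ge_atTop 1, (hlt.comp hlt).eventually_ge_atTop C0,
      (hlt.comp hlt).eventually_ge_atTop (Real.log (448 * A) + 1), hlt.eventually hlo] with T a1 a2
      a3 a4 a5 a6 a7
    exact ⟨a1, a2, a3, a4, a5, a6, a7⟩
  obtain ⟨T₁, hT₁⟩ := eventually_atTop.1 hev
  refine ⟨δ / 2, 2 * D + 3, max 3 T₁, by linarith, by linarith, by linarith, le_max_left _ _, ?_⟩
  intro T hT q hq hqB χ s hs1 hs2 hs3 hs4
  obtain ⟨a1, a2, a3, a4, a5, a6, a7⟩ := hT₁ T ((le_max_right _ _).trans hT)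
  have hub := h T a1 q hq hqB
  generalize hLL : Real.log T = L at *
  generalize hQQ : Real.log L = Q at *
  have hL0 : 0 < L := by linarith
  have hQ0 : 0 < Q := by linarith
  have hexpQ : Real.exp Q = L := by rw [← hQQ, Real.exp_log hL0]
  obtain ⟨w, hw⟩ : ∃ w : ℝ, w = L ^ (δ - 1) / 32 := ⟨_, rfl⟩
  have hLδ : 0 < L ^ (δ - 1) := Real.rpow_pos_of_pos hL0 _
  have hLδ1 : L ^ (δ - 1) ≤ 1 := Real.rpow_le_one_of_one_le_of_nonpos a3 (by linarith)
  have hw0 : 0 < w := by rw [hw]; positivity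
  have hw1 : w ≤ 1 / 32 := by rw [hw]; linarith
  have hM1 : 1 ≤ L ^ K := Real.one_le_rpow a3 (by linarith)
  have hUB : UBc q w (L ^ K) T := by
    intro ψ z h1 h2 h3 h4
    refine hub ψ z (Or.inr h1) h2 ?_ h4
    have h5 : 32 * w = L ^ (δ - 1) := by rw [hw]; ring
    linarith
  obtain ⟨η, hη⟩ : ∃ η : ℝ, η = w / (A * Q) := ⟨_, rfl⟩
  have hη0 : 0 < η := by rw [hη]; positivity
  have hAQ : 1 ≤ A * Q := by
    have h1 : 1 ≤ A := by rw [hA]; linarith
    nlinarith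
  have hηw : η ≤ w := by rw [hη]; exact div_le_self hw0.le hAQ
  obtain ⟨w1, hw1'⟩ : ∃ w1 : ℝ, w1 = η / 7 := ⟨_, rfl⟩
  have hw10 : 0 < w1 := by rw [hw1']; positivity
  -- the logarithmic quantity
  have hMη : 2 * L ^ K / w1 = 448 * A * L ^ K * Q / L ^ (δ - 1) := by
    rw [hw1', hη, hw]
    field_simp
    norm_num
  have hE1 : 12 * (Real.log (2 * L ^ K / w1) + 1) ≤ D * Q := by
    have hLK : 0 < L ^ K := by linarith
    rw [hMη, Real.log_div (by positivity) (by positivity),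
      Real.log_mul (by positivity) (by positivity), Real.log_mul (by positivity) (by positivity),
      Real.log_rpow hL0, Real.log_rpow hL0, hQQ, hD]
    have h1 : Real.log Q ≤ Q := (Real.log_le_sub_one_of_pos hQ0).trans (by linarith)
    nlinarith
  have hE2 : 12 * (Real.log (2 * L ^ K / η) + 1) ≤ D * Q := by
    refine le_trans ?_ hE1
    have hLK : 0 < L ^ K := by linarith
    have h1 : Real.log (2 * L ^ K / η) ≤ Real.log (2 * L ^ K / w1) := by
      apply Real.log_le_log (by positivity)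
      apply div_le_div_of_nonneg_left (by positivity) hw10
      rw [hw1']
      linarith
    linarith
  have hz := hzf q w (L ^ K) T D A Q η hw0 hw1 hM1 (by linarith) hUB a4 a5 hD0 (by rw [hA]) hη hE2 χ
  have hσ : 1 - w1 / 2 ≤ s.re := by
    have q1 : L ^ (δ / 2 - 1) ≤ w1 / 2 := by
      have q2 : w1 / 2 = L ^ (δ - 1) / (448 * A * Q) := by
        rw [hw1', hη, hw]
        field_simp
        norm_num
      rw [q2, le_div_iff₀ (by positivity)]
      have q3 : L ^ (δ - 1) = L ^ (δ / 2 - 1) * L ^ (δ / 2) := by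
        rw [← Real.rpow_add hL0]
        congr 1
        ring
      rw [q3]
      exact mul_le_mul_of_nonneg_left a7 (Real.rpow_nonneg hL0.le _)
    linarith
  obtain ⟨r1, r2⟩ := bdc hw0 hw1 hM1 (by linarith : (2 : ℝ) ≤ T) hUB hD0 hQ0.le hw10
    (by rw [hw1']; linarith) hE1 χ hs1 hs2 (fun ρ hρ hρt => by
      have b1 : |s.im| - |ρ.im| ≤ |ρ.im - s.im| := by
        rw [abs_sub_comm]
        exact abs_sub_abs_le_abs_sub _ _
      have b2 : |ρ.im| - |s.im| ≤ |ρ.im - s.im| := abs_sub_abs_le_abs_sub _ _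
      rw [hw1']
      exact hz ρ hρ (by linarith) (by linarith)) hσ
  have hs : (⟨s.re, s.im⟩ : ℂ) = s := rfl
  rw [hs] at r1 r2
  refine ⟨r1, r2.trans ?_⟩
  have g1 : Real.exp (2 * D * Q) = L ^ (2 * D) := by
    rw [Real.rpow_def_of_pos hL0, hQQ]
    congr 1
    ring
  have g2 : 2 / w1 ≤ L ^ (3 : ℝ) := by
    have g3 : 2 / w1 = 448 * A * Q / L ^ (δ - 1) := by
      rw [hw1', hη, hw]
      field_simp
      norm_num
    rw [g3, div_le_iff₀ hLδ, ← Real.rpow_add hL0]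
    refine a7.trans (Real.rpow_le_rpow_of_exponent_le a3 (by linarith))
  rw [g1, Real.rpow_add hL0]
  exact mul_le_mul_of_nonneg_left g2 (Real.rpow_nonneg hL0.le _)

end Pool.Agent.Q161.CR
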